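import Pool.Agent.H92.HB.Stm

/-!
# Project HB, module SYS (written by helper61 for helper92)
-/

set_option autoImplicit false
set_option linter.all false

open NumberField IsDedekindDomain WeierstrassCurve
open scoped Classical

namespace Pool.Agent.H61.HB

open Pool.Agent.H92.HB
open Pool.Agent.TH115.GD (act ak rs Pt act_act act_locConst)

section
variable {k : Type} [Field k] [NumberField k] (V : WeierstrassCurve k) (q : ℕ)

theorem lc_cob (U : Subgroup (AlgebraicClosure k ≃ₐ[k] AlgebraicClosure k)) (t : Tor V q) :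
    IsLocallyConstant (fun σ : U => (σ : AlgebraicClosure k ≃ₐ[k] AlgebraicClosure k) • t - t) := by
  refine IsLocallyConstant.desc _ (fun P : Tor V q => (P : Pt V (AlgebraicClosure k))) ?_
    Subtype.val_injective
  have h1 : IsLocallyConstant (fun σ : AlgebraicClosure k ≃ₐ[k] AlgebraicClosure k =>
      act V (rs k σ) t.1) := act_locConst V t.1
  have h2 := (h1.comp_continuous (f := fun σ : U =>
    (σ : AlgebraicClosure k ≃ₐ[k] AlgebraicClosure k)) continuous_subtype_val).comp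
      (fun P : Pt V (AlgebraicClosure k) => P - t.1)
  exact h2

theorem loc_cob (v : HeightOneSpectrum (𝓞 k))
    (ι : AlgebraicClosure k →ₐ[k] AlgebraicClosure (v.adicCompletion k))
    (P : Pt V (AlgebraicClosure k))
    (τ : AlgebraicClosure (v.adicCompletion k) ≃ₐ[v.adicCompletion k]
      AlgebraicClosure (v.adicCompletion k))
    (σ : AlgebraicClosure k ≃ₐ[k] AlgebraicClosure k) (h : ∀ x, τ (ι x) = ι (σ x)) :
    act V ι (act V (ak σ) P) = act V (rs k τ) (act V ι P) := by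
  have e : ι.comp (ak σ) = (rs k τ).comp ι := AlgHom.ext fun x => (h x).symm
  rw [act_act, act_act, e]

/-- the group of the cocycles -/
noncomputable def ZZ (U : Subgroup (AlgebraicClosure k ≃ₐ[k] AlgebraicClosure k)) :
    AddSubgroup (U → Tor V q) where
  carrier := {f | IsSel V q U f}
  zero_mem' := ⟨IsLocallyConstant.const _, fun σ τ => by
      show (0 : Tor V q) = 0 + (σ : AlgebraicClosure k ≃ₐ[k] AlgebraicClosure k) • (0 : Tor V q)
      rw [smul_zero, add_zero], fun v ι => ⟨0, fun τ σ _ => by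
      show act V ι (0 : Pt V (AlgebraicClosure k)) = _
      rw [map_zero, map_zero, sub_zero]⟩⟩
  add_mem' := fun {f g} hf hg => ⟨hf.lc.add hg.lc, fun σ τ => by
      show f (σ * τ) + g (σ * τ) = f σ + g σ + (σ : AlgebraicClosure k ≃ₐ[k] AlgebraicClosure k) •
        (f τ + g τ)
      rw [hf.coc, hg.coc, smul_add]
      abel, fun v ι => by
      obtain ⟨P, hP⟩ := hf.loc v ι
      obtain ⟨Q, hQ⟩ := hg.loc v ι
      refine ⟨P + Q, fun τ σ h => ?_⟩
      show act V ι ((f σ).1 + (g σ).1) = _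
      rw [map_add, hP τ σ h, hQ τ σ h, map_add]
      abel⟩
  neg_mem' := fun {f} hf => ⟨hf.lc.neg, fun σ τ => by
      show - f (σ * τ) = - f σ + (σ : AlgebraicClosure k ≃ₐ[k] AlgebraicClosure k) • (- f τ)
      rw [hf.coc, smul_neg]
      abel, fun v ι => by
      obtain ⟨P, hP⟩ := hf.loc v ι
      refine ⟨-P, fun τ σ h => ?_⟩
      show act V ι (-(f σ).1) = _
      rw [map_neg, hP τ σ h, map_neg]
      abel⟩

end

/-- Module SYS. -/
theorem t_SYS : S_SYS := by
  intro k _ _ V q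
  refine ⟨⟨ZZ V q, fun U f hf => hf.coc, fun U t => ?_, fun U U' h f hf => ?_,
    fun U hU τ f hf f' h => ?_⟩, fun U f => Iff.rfl⟩
  · refine ⟨lc_cob V q U t, fun σ τ => ?_, fun v ι => ⟨act V ι t.1, fun τ σ h => ?_⟩⟩
    · show ((σ : AlgebraicClosure k ≃ₐ[k] AlgebraicClosure k) * τ) • t - t = _
      rw [mul_smul, smul_sub]
      abel
    · show act V ι (act V (ak σ.1) t.1 - t.1) = _
      rw [map_sub, loc_cob V v ι t.1 τ σ.1 h]
  · refine ⟨?_, fun σ τ => ?_, fun v ι => ?_⟩
    · exact hf.lc.comp_continuous (f := fun σ : U => (⟨σ, h σ.2⟩ : U')) (continuous_inclusion h)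
    · exact hf.coc ⟨σ, h σ.2⟩ ⟨τ, h τ.2⟩
    · obtain ⟨P, hP⟩ := hf.loc v ι
      exact ⟨P, fun τ σ hh => hP τ ⟨σ, h σ.2⟩ hh⟩
  · have hmem : ∀ σ : U, τ⁻¹ * (σ : AlgebraicClosure k ≃ₐ[k] AlgebraicClosure k) * τ ∈ U := by
      intro σ
      have := hU.conj_mem σ σ.2 τ⁻¹
      rwa [inv_inv] at this
    have hf' : ∀ σ : U, f' σ = τ • f ⟨_, hmem σ⟩ := by
      intro σ
      refine h σ ⟨_, hmem σ⟩ ?_
      show (σ : AlgebraicClosure k ≃ₐ[k] AlgebraicClosure k) * τ = τ * (τ⁻¹ * σ * τ)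
      group
    refine ⟨?_, fun σ ρ => ?_, fun v ι => ?_⟩
    · have hc : Continuous (fun σ : U => (⟨_, hmem σ⟩ : U)) :=
        ((continuous_const.mul continuous_subtype_val).mul continuous_const).subtype_mk _
      have h1 := (hf.lc.comp_continuous hc).comp (fun t : Tor V q => τ • t)
      have h2 : f' = (fun t : Tor V q => τ • t) ∘ (f ∘ fun σ : U => (⟨_, hmem σ⟩ : U)) :=
        funext hf'
      rw [h2]
      exact h1
    · rw [hf', hf', hf']
      have e1 : (⟨_, hmem (σ * ρ)⟩ : U) = ⟨_, hmem σ⟩ * ⟨_, hmem ρ⟩ := by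
        apply Subtype.ext
        show τ⁻¹ * ((σ : AlgebraicClosure k ≃ₐ[k] AlgebraicClosure k) * ρ) * τ =
          (τ⁻¹ * σ * τ) * (τ⁻¹ * ρ * τ)
        group
      rw [e1, hf.coc, smul_add]
      congr 1
      show τ • ((τ⁻¹ * (σ : AlgebraicClosure k ≃ₐ[k] AlgebraicClosure k) * τ) • f ⟨_, hmem ρ⟩) = _
      rw [← mul_smul, ← mul_smul]
      congr 1
      group
    · obtain ⟨P, hP⟩ := hf.loc v (ι.comp (ak τ))
      refine ⟨P, fun t σ hh => ?_⟩
      rw [hf' σ]
      have h1 := hP t ⟨_, hmem σ⟩ (fun x => by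
        show t (ι (τ x)) = ι (τ ((τ⁻¹ * (σ : AlgebraicClosure k ≃ₐ[k] AlgebraicClosure k) * τ) x))
        rw [hh]
        congr 1
        have e : τ * (τ⁻¹ * (σ : AlgebraicClosure k ≃ₐ[k] AlgebraicClosure k) * τ) = σ * τ := by
          group
        exact (congrArg (fun g : AlgebraicClosure k ≃ₐ[k] AlgebraicClosure k => g x) e).symm)
      rw [← h1]
      show act V ι (act V (ak τ) (f ⟨_, hmem σ⟩).1) = _
      rw [act_act]

end Pool.Agent.H61.HB
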